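import Mathlib
import Pool.Agent.Q68.BL.Ex2

/-!
# MP_8df504_an, Q1 and Q2 (negative answers)

* `T1 y = min (G y) c`, where `G` is the threefold tent map (slopes `3, -3, 3`) and `c` is a point of
  the middle third Cantor set whose digit frequencies diverge. Almost every orbit falls on the orbit
  of `c`, and the proportion of time spent in the interval `[0, 1/2]` diverges.
* `T2 y = y / 2`. For a suitable union `R` of intervals all averages `A_N(R, p)`, `p > 0`, diverge;
  for another one they all converge, and the limit is `2 p - 1` for `p` in `(1/2, 1]`.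

The definitions `IsBrokenLinear`, `avg`, `Question1`, `Question2` are in `Pool.Agent.Q68.BL.Defs`.
-/

open MeasureTheory Filter Topology Set

namespace Pool.Agent.Results.MP_8df504_an.DivergentAverages

open Q68.BL

/-- The statements of Q1 and of Q2 are false. Moreover:
* there is a broken-linear `T` for which `A_N([0, 1/2], p)` diverges for almost every `p ∈ [0, 1]`;
* there is a strictly increasing broken-linear `T` with a Borel set `R` such that `A_N(R, p)`
  diverges for every `p ∈ (0, 1]`, and with a Borel set `R'` such that the limit `L p` of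
  `A_N(R', p)` exists for every `p ∈ (0, 1]` and is not almost everywhere in a countable set. -/
theorem result : ¬ Question1 ∧ ¬ Question2 ∧
    (∃ T : ℝ → ℝ, IsBrokenLinear T ∧ ∀ᵐ p ∂(volume.restrict (Icc (0 : ℝ) 1)),
      ¬ ∃ L : ℝ, Tendsto (avg T (Icc 0 (1 / 2)) p) atTop (𝓝 L)) ∧
    (∃ T : ℝ → ℝ, IsBrokenLinear T ∧ StrictMono T ∧
      (∃ R ⊆ Icc (0 : ℝ) 1, MeasurableSet R ∧
        ∀ p ∈ Ioc (0 : ℝ) 1, ¬ ∃ L : ℝ, Tendsto (avg T R p) atTop (𝓝 L)) ∧
      (∃ R ⊆ Icc (0 : ℝ) 1, MeasurableSet R ∧ ∃ L : ℝ → ℝ,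
        (∀ p ∈ Ioc (0 : ℝ) 1, Tendsto (avg T R p) atTop (𝓝 (L p))) ∧
        ∀ V : Set ℝ, V.Countable →
          ¬ ∀ᵐ p ∂(volume.restrict (Icc (0 : ℝ) 1)), L p ∈ V)) := by
  classical
  have hne : (volume.restrict (Icc (0 : ℝ) 1)) ≠ 0 := by
    intro h
    have := Measure.restrict_eq_zero.1 h
    simp at this
  have hnb : (ae (volume.restrict (Icc (0 : ℝ) 1))).NeBot := ae_neBot.2 hne
  -- the limit function for the second example
  obtain ⟨L, hL⟩ : ∃ L : ℝ → ℝ, ∀ p ∈ Ioc (0 : ℝ) 1,
      Tendsto (avg T2 (scaled Wval) p) atTop (𝓝 (L p)) := by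
    have : ∀ p : ℝ, ∃ l : ℝ, p ∈ Ioc (0 : ℝ) 1 →
        Tendsto (avg T2 (scaled Wval) p) atTop (𝓝 l) := by
      intro p
      by_cases hp : p ∈ Ioc (0 : ℝ) 1
      · obtain ⟨k, q, hq, rfl⟩ := exists_scale hp
        exact ⟨2 * q - 1, fun _ => T2_value hq k⟩
      · exact ⟨0, fun h => absurd h hp⟩
    choose L hL using this
    exact ⟨L, hL⟩
  have hLval : ∀ q ∈ Ioc (1 / 2 : ℝ) 1, L q = 2 * q - 1 := by
    intro q hq
    have h1 := hL q ⟨by linarith [hq.1], hq.2⟩
    have h2 := T2_value hq 0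
    rw [pow_zero, div_one] at h2
    exact tendsto_nhds_unique h1 h2
  have hcount : ∀ V : Set ℝ, V.Countable →
      ¬ ∀ᵐ p ∂(volume.restrict (Icc (0 : ℝ) 1)), L p ∈ V := by
    intro V hV h
    rw [ae_restrict_iff' measurableSet_Icc] at h
    have h1 : ((fun q : ℝ => 2 * q - 1) ⁻¹' V).Countable :=
      hV.preimage (fun a b hab => by
        have : 2 * a - 1 = 2 * b - 1 := hab
        linarith)
    have h2 : volume ((fun q : ℝ => 2 * q - 1) ⁻¹' V) = 0 := h1.measure_zero _
    have h3 : volume (Ioc (1 / 2 : ℝ) 1) = 0 := by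
      have h4 : ∀ᵐ q : ℝ ∂volume, q ∉ Ioc (1 / 2 : ℝ) 1 := by
        filter_upwards [h, measure_eq_zero_iff_ae_notMem.1 h2] with q hq1 hq2 hq3
        apply hq2
        have := hq1 ⟨by linarith [hq3.1], hq3.2⟩
        rw [hLval q hq3] at this
        exact this
      exact measure_eq_zero_iff_ae_notMem.2 h4
    rw [Real.volume_Ioc] at h3
    norm_num at h3
  have haeL : ∀ᵐ p ∂(volume.restrict (Icc (0 : ℝ) 1)),
      Tendsto (avg T2 (scaled Wval) p) atTop (𝓝 (L p)) := by
    rw [ae_restrict_iff' measurableSet_Icc]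
    have h0 : ∀ᵐ p : ℝ ∂volume, p ≠ 0 := by
      rw [ae_iff]
      simp
    filter_upwards [h0] with p hp0 hp
    exact hL p ⟨lt_of_le_of_ne hp.1 (Ne.symm hp0), hp.2⟩
  refine ⟨?_, ?_, ⟨T1, T1_brokenLinear, ?_⟩, T2, T2_brokenLinear, T2_strictMono,
    ⟨scaled Wdiv, scaled_subset _, scaled_measurable Wdiv_measurable, ?_⟩,
    scaled Wval, scaled_subset _, scaled_measurable Wval_measurable, L, hL, hcount⟩
  · intro h
    have h1 := h T1 T1_brokenLinear (Icc 0 (1 / 2)) (Icc_subset_Icc le_rfl (by norm_num))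
      measurableSet_Icc.nullMeasurableSet
    obtain ⟨p, ⟨l, hl⟩, hp⟩ := (h1.and ae_diverges).exists
    exact hp l hl
  · intro h
    obtain ⟨V, hV, h1⟩ := h T2 T2_brokenLinear (scaled Wval) (scaled_subset _)
      (scaled_measurable Wval_measurable).nullMeasurableSet L haeL
    exact hcount V hV.countable h1
  · filter_upwards [ae_diverges] with p hp
    rintro ⟨l, hl⟩
    exact hp l hl
  · rintro p hp ⟨l, hl⟩
    exact T2_diverges hp l hl

end Pool.Agent.Results.MP_8df504_an.DivergentAverages
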